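import Pool.Agent.helper70.FL.SpecZ

/-!
# Row fl:ZGI: exponential bound for the inverse of the real Gamma factor in vertical strips
-/

set_option autoImplicit false

open MeasureTheory Set
open scoped ComplexConjugate

namespace Pool.Agent.FL

theorem ZGI_Gamma_le (s : ℂ) (hs : 0 < s.re) : ‖Complex.Gamma s‖ ≤ Real.Gamma s.re := by
  rw [Complex.Gamma_eq_integral hs, Real.Gamma_eq_integral hs]
  unfold Complex.GammaIntegral
  refine le_trans (norm_integral_le_integral_norm _) (le_of_eq ?_)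
  refine setIntegral_congr_fun measurableSet_Ioi ?_
  intro x hx
  have hx0 : 0 < x := hx
  simp only [norm_mul, Complex.norm_real, Real.norm_eq_abs, abs_of_pos (Real.exp_pos _)]
  congr 1
  rw [Complex.norm_cpow_eq_rpow_re_of_pos hx0]
  simp

theorem ZGI_sin (w : ℂ) : ‖Complex.sin w‖ ≤ Real.exp |w.im| := by
  unfold Complex.sin
  have h1 : ‖Complex.exp (-w * Complex.I)‖ ≤ Real.exp |w.im| := by
    rw [Complex.norm_exp]
    apply Real.exp_le_exp.mpr
    simp
    exact le_abs_self _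
  have h2 : ‖Complex.exp (w * Complex.I)‖ ≤ Real.exp |w.im| := by
    rw [Complex.norm_exp]
    apply Real.exp_le_exp.mpr
    simp
    exact neg_le_abs _
  rw [norm_div, norm_mul, Complex.norm_I, mul_one]
  have h3 : ‖(2 : ℂ)‖ = 2 := by simp
  rw [h3]
  have h4 := norm_sub_le (Complex.exp (-w * Complex.I)) (Complex.exp (w * Complex.I))
  linarith

theorem ZGI_refl (z : ℂ) (hz : z.re < 1) :
    (Complex.Gamma z)⁻¹ = Complex.Gamma (1 - z) * Complex.sin (Real.pi * z) / Real.pi := by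
  have h := Complex.Gamma_mul_Gamma_one_sub z
  have hpi : (Real.pi : ℂ) ≠ 0 := by exact_mod_cast Real.pi_ne_zero
  have h1 : Complex.Gamma (1 - z) ≠ 0 := by
    apply Complex.Gamma_ne_zero_of_re_pos
    simp
    exact hz
  by_cases hs : Complex.sin (Real.pi * z) = 0
  · rw [hs] at h
    simp only [div_zero, mul_eq_zero, h1, or_false] at h
    rw [h, hs]
    simp
  · have h2 : Complex.Gamma z ≠ 0 := by
      intro h0
      rw [h0, zero_mul] at h
      exact (div_ne_zero hpi hs) h.symm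
    rw [eq_div_iff hs] at h
    rw [eq_div_iff hpi, inv_mul_eq_iff_eq_mul₀ h2]
    linear_combination -h

theorem ZGI_base (B : ℝ) : ∃ M : ℝ, 0 < M ∧ ∀ z : ℂ, -B ≤ z.re → z.re ≤ 1 / 2 →
    ‖(Complex.Gamma z)⁻¹‖ ≤ M * Real.exp (Real.pi * |z.im|) := by
  have hcomp : IsCompact (Set.Icc (1 / 2 : ℝ) (1 + B)) := isCompact_Icc
  have hcont : ContinuousOn Real.Gamma (Set.Icc (1 / 2 : ℝ) (1 + B)) := by
    intro x hx
    apply ContinuousAt.continuousWithinAt
    apply DifferentiableAt.continuousAt (𝕜 := ℝ)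
    apply Real.differentiableAt_Gamma
    intro m hm
    have h1 := hx.1
    rw [hm] at h1
    have h2 : (0 : ℝ) ≤ m := Nat.cast_nonneg m
    linarith
  obtain ⟨M, hM⟩ := hcomp.exists_bound_of_continuousOn hcont
  refine ⟨|M| + 1, by positivity, ?_⟩
  intro z h1 h2
  rw [ZGI_refl z (by linarith)]
  rw [norm_div, norm_mul]
  have h3 : ‖Complex.Gamma (1 - z)‖ ≤ |M| + 1 := by
    have h4 := ZGI_Gamma_le (1 - z) (by simp; linarith)
    have h5 := hM (1 - z).re ⟨by simp; linarith, by simp; linarith⟩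
    rw [Real.norm_eq_abs] at h5
    have h6 := le_abs_self (Real.Gamma (1 - z).re)
    have h7 := le_abs_self M
    linarith
  have h4 : ‖Complex.sin (Real.pi * z)‖ ≤ Real.exp (Real.pi * |z.im|) := by
    have h5 := ZGI_sin (Real.pi * z)
    have h6 : |((Real.pi : ℂ) * z).im| = Real.pi * |z.im| := by
      have : ((Real.pi : ℂ) * z).im = Real.pi * z.im := by simp
      rw [this, abs_mul, abs_of_pos Real.pi_pos]
    rw [h6] at h5
    exact h5
  have h5 : ‖(Real.pi : ℂ)‖ = Real.pi := by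
    rw [Complex.norm_real, Real.norm_eq_abs, abs_of_pos Real.pi_pos]
  rw [h5]
  have h6 : ‖Complex.Gamma (1 - z)‖ * ‖Complex.sin (Real.pi * z)‖ ≤ (|M| + 1) * Real.exp (Real.pi * |z.im|) :=
    mul_le_mul h3 h4 (norm_nonneg _) (by positivity)
  refine le_trans (div_le_self (by positivity) ?_) h6
  have := Real.pi_gt_three
  linarith

theorem ZGI_step (N : ℕ) (z : ℂ) (hz : 1 ≤ |z.im|) :
    ‖(Complex.Gamma z)⁻¹‖ ≤ ‖(Complex.Gamma (z - N))⁻¹‖ := by
  induction N with
  | zero => simp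
  | succ N ih =>
    refine le_trans ih ?_
    have h1 := Complex.one_div_Gamma_eq_self_mul_one_div_Gamma_add_one (z - ((N + 1 : ℕ) : ℂ))
    have h2 : z - ((N + 1 : ℕ) : ℂ) + 1 = z - N := by push_cast; ring
    rw [h2] at h1
    rw [h1, norm_mul]
    have h3 : 1 ≤ ‖z - ((N + 1 : ℕ) : ℂ)‖ := by
      refine le_trans hz ?_
      have h4 := Complex.abs_im_le_norm (z - ((N + 1 : ℕ) : ℂ))
      have h5 : (z - ((N + 1 : ℕ) : ℂ)).im = z.im := by simp
      rw [h5] at h4
      exact h4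
    exact le_mul_of_one_le_left (norm_nonneg _) h3

theorem ZGI_Gamma (A : ℝ) : ∃ K : ℝ, 0 < K ∧ ∀ z : ℂ, |z.re| ≤ A →
    ‖(Complex.Gamma z)⁻¹‖ ≤ K * Real.exp (Real.pi * |z.im|) := by
  obtain ⟨N, hN⟩ := exists_nat_ge A
  obtain ⟨M, hM0, hM⟩ := ZGI_base (A + N)
  have hcont : Continuous (fun z : ℂ => (Complex.Gamma z)⁻¹) :=
    Complex.differentiable_one_div_Gamma.continuous
  have hcomp : IsCompact (Set.Icc (-A) A ×ℂ Set.Icc (-1 : ℝ) 1) :=
    isCompact_Icc.reProdIm isCompact_Icc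
  obtain ⟨L, hL⟩ := hcomp.exists_bound_of_continuousOn hcont.continuousOn
  refine ⟨M + |L|, by positivity, ?_⟩
  intro z hz
  have hz' := abs_le.mp hz
  have hexp : 1 ≤ Real.exp (Real.pi * |z.im|) := by
    apply Real.one_le_exp
    positivity
  rcases le_total |z.im| 1 with h | h
  · have h1 := hL z (by
      rw [Complex.mem_reProdIm]
      exact ⟨⟨hz'.1, hz'.2⟩, abs_le.mp h⟩)
    have h2 := le_abs_self L
    have h3 : M + |L| ≤ (M + |L|) * Real.exp (Real.pi * |z.im|) :=
      le_mul_of_one_le_right (by positivity) hexp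
    linarith
  · have h1 := ZGI_step N z h
    have h2 := hM (z - N) (by simp; linarith) (by simp; linarith)
    have h3 : (z - (N : ℂ)).im = z.im := by simp
    rw [h3] at h2
    have h4 : M * Real.exp (Real.pi * |z.im|) ≤ (M + |L|) * Real.exp (Real.pi * |z.im|) := by
      apply mul_le_mul_of_nonneg_right _ (by positivity)
      have := abs_nonneg L
      linarith
    linarith

theorem ZGI : ZGI_stmt := by
  intro A
  obtain ⟨K, hK0, hK⟩ := ZGI_Gamma (|A| / 2)
  have hP : 0 < Real.pi ^ (|A| / 2) := Real.rpow_pos_of_pos Real.pi_pos _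
  refine ⟨max (Real.pi ^ (|A| / 2) * K) Real.pi, lt_of_lt_of_le Real.pi_pos (le_max_right _ _), ?_⟩
  intro z hz
  have hzA : |z.re| ≤ |A| := le_trans hz (le_abs_self A)
  rw [Complex.Gammaℝ_def, mul_inv, norm_mul]
  have h1 : ‖((Real.pi : ℂ) ^ (-z / 2))⁻¹‖ ≤ Real.pi ^ (|A| / 2) := by
    rw [norm_inv, Complex.norm_cpow_eq_rpow_re_of_pos Real.pi_pos, ← Real.rpow_neg Real.pi_pos.le]
    apply Real.rpow_le_rpow_of_exponent_le
    · have := Real.pi_gt_three
      linarith
    · have h2 : (-z / 2 : ℂ).re = - z.re / 2 := by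
        have : (-z / 2 : ℂ) = ((1 / 2 : ℝ) : ℂ) * (-z) := by push_cast; ring
        rw [this, Complex.re_ofReal_mul]
        simp
        ring
      rw [h2]
      have := le_abs_self z.re
      linarith
  have hre : (z / 2 : ℂ).re = z.re / 2 := by
    have : (z / 2 : ℂ) = ((1 / 2 : ℝ) : ℂ) * z := by push_cast; ring
    rw [this, Complex.re_ofReal_mul]
    ring
  have him : (z / 2 : ℂ).im = z.im / 2 := by
    have : (z / 2 : ℂ) = ((1 / 2 : ℝ) : ℂ) * z := by push_cast; ring
    rw [this, Complex.im_ofReal_mul]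
    ring
  have h2 := hK (z / 2) (by
    rw [hre, abs_div, abs_of_pos (by norm_num : (0 : ℝ) < 2)]
    linarith)
  rw [him] at h2
  have h3 : Real.pi * |z.im / 2| ≤ max (Real.pi ^ (|A| / 2) * K) Real.pi * |z.im| := by
    have h4 : |z.im / 2| ≤ |z.im| := by
      rw [abs_div, abs_of_pos (by norm_num : (0 : ℝ) < 2)]
      have := abs_nonneg z.im
      linarith
    exact mul_le_mul (le_max_right _ _) h4 (abs_nonneg _) (le_trans Real.pi_pos.le (le_max_right _ _))
  calc ‖((Real.pi : ℂ) ^ (-z / 2))⁻¹‖ * ‖(Complex.Gamma (z / 2))⁻¹‖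
      ≤ Real.pi ^ (|A| / 2) * (K * Real.exp (Real.pi * |z.im / 2|)) :=
        mul_le_mul h1 h2 (norm_nonneg _) hP.le
    _ = (Real.pi ^ (|A| / 2) * K) * Real.exp (Real.pi * |z.im / 2|) := by ring
    _ ≤ max (Real.pi ^ (|A| / 2) * K) Real.pi *
        Real.exp (max (Real.pi ^ (|A| / 2) * K) Real.pi * |z.im|) := by
        apply mul_le_mul (le_max_left _ _) (Real.exp_le_exp.mpr h3) (Real.exp_pos _).le
        exact le_trans Real.pi_pos.le (le_max_right _ _)

end Pool.Agent.FL
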